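import Pool.Agent.H.MP_eb6644.A

set_option autoImplicit false
open Set Filter Topology TopologicalSpace

namespace Pool.Agent.H.MP_3028b5

open Pool.Agent.H.MP_d2b9e5 (Om Om1 Om2)
open Pool.Agent.H.MP_28dc43 (o2 supN lim2 bdd reg a12)
open Pool.Agent.H.MP_526336 (ret)
open Pool.Agent.H.MP_eb6644 (Y Yc Ys)

def Sm {Z : Type} (s : Set Z) : Prop := Cardinal.mk s ≤ Cardinal.aleph 1

theorem smU {Z ι : Type} (hι : Cardinal.mk ι ≤ Cardinal.aleph 1) {f : ι → Set Z}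
    (hf : ∀ i, Sm (f i)) : Sm (⋃ i, f i) :=
  Cardinal.mk_iUnion_le_sum_mk.trans ((Cardinal.sum_le_sum _ (fun _ => Cardinal.aleph 1) hf).trans
    (by
      rw [Cardinal.sum_const']
      exact (mul_le_mul_left hι _).trans (Cardinal.mul_eq_self (Cardinal.aleph0_le_aleph 1)).le))

theorem smC {Z : Type} {s : Set Z} (h : s.Countable) : Sm s :=
  (Cardinal.le_aleph0_iff_set_countable.2 h).trans (Cardinal.aleph0_le_aleph 1)

theorem s12 {c : Cardinal.{0}} : c ≤ Cardinal.aleph 1 ↔ c < Cardinal.aleph 2 := by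
  rw [← Order.lt_succ_iff, Cardinal.succ_aleph, one_add_one_eq_two]

abbrev W2 : Type := (Cardinal.aleph.{0} 2).ord.ToType

theorem w1 : ¬ Sm (univ : Set W2) := by
  rw [Sm, Cardinal.mk_univ, Cardinal.mk_ord_toType, not_le]
  exact a12

theorem w2 : ∃ e : W2 → W2 → Om, ∀ α, InjOn (e α) (Iio α) := by
  classical
  obtain ⟨ξ0, -⟩ := bdd countable_empty
  have : ∀ α : W2, ∃ e : W2 → Om, InjOn e (Iio α) := fun α => by
    obtain ⟨j⟩ : Nonempty (Iio α ↪ Om) := (Cardinal.le_def _ _).1 (by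
      rw [Cardinal.mk_ord_toType]; exact s12.2 (Cardinal.mk_Iio_toType_ord_lt α))
    refine ⟨fun a => if ha : a < α then j ⟨a, ha⟩ else ξ0, fun x hx y hy hxy => ?_⟩
    simp only [dif_pos (show x < α from hx), dif_pos (show y < α from hy)] at hxy
    exact congrArg Subtype.val (j.injective hxy)
  choose e he using this
  exact ⟨e, he⟩

theorem w3 {S : Set W2} (h : ¬ Sm S) : ∃ α ∈ S, ¬ (S ∩ Iio α).Countable := by
  by_contra hn
  push Not at hn
  obtain ⟨p, p1, p2⟩ := Cardinal.le_mk_iff_exists_subset.1 (not_le.1 h).le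
  refine h ((Cardinal.mk_le_mk_of_subset fun γ hγ => ?_).trans (smU p2.le
    (f := fun α : p => insert α.1 (S ∩ Iio α.1)) fun α => smC ((hn α (p1 α.2)).insert _)))
  by_contra hm
  have k : p ⊆ S ∩ Iio γ := fun α hα =>
    ⟨p1 hα, not_le.1 fun e => hm (mem_iUnion.2 ⟨⟨α, hα⟩, e.eq_or_lt.imp_right fun e => ⟨hγ, e⟩⟩)⟩
  exact absurd (p2 ▸ Cardinal.le_aleph0_iff_set_countable.2 ((hn γ hγ).mono k))
    (not_le.2 Cardinal.aleph0_lt_aleph_one)

theorem game {Z : Type} (nx : Z → W2 → Z) (bd : Om → Z → Prop) (T0 : Z)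
    (h : ∀ t : ℕ → Z, ∃ δ, ∀ n, bd δ (t n)) :
    ∃ δ, ∃ P : Set Z, T0 ∈ P ∧ ∀ T ∈ P, bd δ T ∧ ¬ Sm {β | nx T β ∈ P} := by
  let Win : Om → Z → (List W2 → Set W2) → Prop := fun δ T σ => (∀ l, Sm (σ l)) ∧ ∀ β : ℕ → W2,
    (∀ n, β n ∉ σ ((List.range n).map β)) → ∃ n, ¬ bd δ (((List.range n).map β).foldl nx T)
  obtain ⟨δ, hδ⟩ : ∃ δ, ¬ ∃ σ, Win δ T0 σ := by
    by_contra hn
    push Not at hn
    choose σ hσ using hn
    have : ∀ l, ∃ β, β ∉ ⋃ δ, σ δ l := fun l => by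
      by_contra hm
      push Not at hm
      exact w1 (eq_univ_of_forall hm ▸ smU (Cardinal.mk_ord_toType _).le fun δ => (hσ δ).1 l)
    choose c hc using this
    let L : ℕ → List W2 := fun n => (fun l => l ++ [c l])^[n] []
    have e : ∀ n, (List.range n).map (fun n => c (L n)) = L n := fun n => by
      induction n with
      | zero => rfl
      | succ n ih =>
        rw [List.range_succ, List.map_append, ih]
        exact (Function.iterate_succ_apply' (fun l => l ++ [c l]) n []).symm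
    obtain ⟨δ, hδ⟩ := h fun n => (L n).foldl nx T0
    obtain ⟨n, hn⟩ := (hσ δ).2 (fun n => c (L n)) fun n hn => hc _ (mem_iUnion.2 ⟨δ, e n ▸ hn⟩)
    exact hn (e n ▸ hδ n)
  refine ⟨δ, {T | ¬ ∃ σ, Win δ T σ}, hδ, fun T hT => ⟨?_, fun hs => hT ?_⟩⟩
  · by_contra hn
    exact hT ⟨fun _ => ∅, fun _ => smC countable_empty, fun β _ => ⟨0, hn⟩⟩
  · have : ∀ β, ∃ σ : List W2 → Set W2, (∀ l, Sm (σ l)) ∧
        ((∃ σ, Win δ (nx T β) σ) → Win δ (nx T β) σ) := fun β => by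
      by_cases e : ∃ σ, Win δ (nx T β) σ
      · exact e.imp fun σ h => ⟨h.1, fun _ => h⟩
      · exact ⟨fun _ => ∅, fun _ => smC countable_empty, fun h => absurd h e⟩
    choose σ s1 s2 using this
    refine ⟨fun l => l.casesOn {β | ¬ ∃ σ, Win δ (nx T β) σ} σ, fun l => l.casesOn hs s1,
      fun β hβ => ?_⟩
    obtain ⟨n, hn⟩ := (s2 (β 0) (not_not.1 (hβ 0))).2 (fun n => β (n + 1)) fun n => by
      have := hβ (n + 1)
      rwa [List.range_succ_eq_map, List.map_cons, List.map_map] at this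
    refine ⟨n + 1, ?_⟩
    rwa [List.range_succ_eq_map, List.map_cons, List.map_map]

theorem frag {B Z : Type} [TopologicalSpace Z] [SecondCountableTopology Z] [Uncountable B]
    (y : B → Z) : ∃ L : Set B, L.Nonempty ∧ ∀ U, IsOpen U → ∀ b ∈ L, y b ∈ U →
      ∃ c ∈ L, c ≠ b ∧ y c ∈ U := by
  obtain ⟨T, T1, T2, T3⟩ := isOpen_sUnion_countable {U | IsOpen U ∧ (y ⁻¹' U).Countable}
    fun _ h => h.1
  have c : (y ⁻¹' ⋃₀ T).Countable := by
    rw [preimage_sUnion]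
    exact T1.biUnion fun U hU => (T2 hU).2
  refine ⟨(y ⁻¹' ⋃₀ T)ᶜ, nonempty_compl.2 fun e => not_countable_univ (e ▸ c), fun U hU b hb e => ?_⟩
  by_contra hn
  push Not at hn
  refine hb (show y b ∈ ⋃₀ T from T3 ▸ ⟨U, ⟨hU, (c.insert b).mono fun a ha => ?_⟩, e⟩)
  by_contra hm
  exact hn a (fun h => hm (Or.inr h)) (fun h => hm (Or.inl h)) ha

variable {K Γ : Type} [TopologicalSpace K] [CompactSpace K] {h : K → Γ → ℝ}

theorem tree (hc : Continuous h) (hd : Dense {p | {θ | h p θ ≠ 0}.Countable}) (x : K) {A : Set Γ}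
    (hA : ¬ Sm A) : ∃ (T : Set Γ) (y : (ℕ → Bool) → K), T.Countable ∧ (∀ b, y b ∈ Y h T) ∧
      ∀ b c, b ≠ c → ∃ γ ∈ A, h (y b) γ = 0 ∧ h (y c) γ = h x γ := by
  choose hS r D hh using ret hc hd
  obtain ⟨a⟩ : Nonempty (W2 ↪ A) := (Cardinal.le_def _ _).1 (by
    rw [Cardinal.mk_ord_toType]; exact not_lt.1 (mt s12.2 hA))
  obtain ⟨e, he⟩ := w2
  let Z := {T : Set Γ // T.Countable ∧ ∃ y ∈ Y h T, ∀ θ ∈ T, h y θ = h x θ}
  let mk : (T : Set Γ) → T.Countable → Z := fun T hT => ⟨hS T, (hh T hT).2.1, r T x,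
    ((hh T hT).2.2.2 x).2.2, ((hh T hT).2.2.2 x).2.1⟩
  let nx : Z → W2 → Z := fun T β => mk (insert (a β).1 T.1) (T.2.1.insert _)
  have n1 : ∀ T β, insert (a β).1 T.1 ⊆ (nx T β).1 := fun T β => (hh _ (T.2.1.insert _)).1
  let bd : Om → Set Γ → Prop := fun δ T => ∀ α β, (a α).1 ∈ T → (a β).1 ∈ T → β < α → e α β < δ
  obtain ⟨δ, P, P0, hP⟩ := game nx (fun δ T => bd δ T.1) (mk ∅ countable_empty) fun t => by
    have c : ((fun α => (a α).1) ⁻¹' ⋃ n, (t n).1).Countable :=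
      (countable_iUnion fun n => (t n).2.1).preimage (Subtype.val_injective.comp a.injective)
    obtain ⟨δ, hδ⟩ := bdd (c.image2 c e)
    exact ⟨δ, fun n α β h1 h2 _ => hδ _ ⟨α, mem_iUnion.2 ⟨n, h1⟩, β, mem_iUnion.2 ⟨n, h2⟩, rfl⟩⟩
  have sp : ∀ T : P, ∃ f : Bool → P, ∃ α β, (∀ i, T.1.1 ⊆ (f i).1.1) ∧ (a α).1 ∈ (f true).1.1 ∧
      (a β).1 ∈ (f false).1.1 ∧ β < α ∧ ¬ e α β < δ := by
    intro T
    obtain ⟨α, a1, a2⟩ := w3 (hP _ T.2).2
    obtain ⟨β, b1, b2⟩ : ∃ β ∈ {β | nx T β ∈ P} ∩ Iio α, ¬ e α β < δ := by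
      by_contra hn
      push Not at hn
      exact a2 (countable_of_injective_of_countable_image ((he α).mono inter_subset_right)
        ((Om2 δ).mono (by rintro _ ⟨β, hβ, rfl⟩; exact hn β hβ)))
    exact ⟨fun i => i.casesOn ⟨_, b1.1⟩ ⟨_, a1⟩, α, β, fun i => i.casesOn
      ((subset_insert _ _).trans (n1 _ _)) ((subset_insert _ _).trans (n1 _ _)),
      n1 _ _ (mem_insert _ _), n1 _ _ (mem_insert _ _), b1.2, b2⟩
  choose f α β f1 f2 f3 f4 f5 using sp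
  let F : List Bool → P := fun l => l.foldr (fun i T => f T i) ⟨_, P0⟩
  let l : (ℕ → Bool) → ℕ → List Bool := fun b n => Nat.rec [] (fun n l => b n :: l) n
  have m : ∀ b, Monotone fun n => (F (l b n)).1.1 := fun b =>
    monotone_nat_of_le_succ fun n => f1 _ _
  have ex : ∀ b, ∃ y ∈ Y h (⋃ n, (F (l b n)).1.1), ∀ θ ∈ ⋃ n, (F (l b n)).1.1, h y θ = h x θ := by
    intro b
    have cl : ∀ n, IsClosed (Y h (⋃ n, (F (l b n)).1.1) ∩ {y | ∀ θ ∈ (F (l b n)).1.1, h y θ = h x θ}) :=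
      fun n => by
        refine (Yc hc _).inter ?_
        simp only [ofPred_forall]
        exact isClosed_iInter fun i => isClosed_iInter fun _ =>
          isClosed_eq (by fun_prop) continuous_const
    obtain ⟨y, hy⟩ := IsCompact.nonempty_iInter_of_sequence_nonempty_isCompact_isClosed
      (fun n => Y h (⋃ n, (F (l b n)).1.1) ∩ {y | ∀ θ ∈ (F (l b n)).1.1, h y θ = h x θ})
      (fun n y hy => ⟨hy.1, fun θ hθ => hy.2 θ (m b n.le_succ hθ)⟩) (fun n => by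
        obtain ⟨y, y1, y2⟩ := (F (l b n)).1.2.2
        exact ⟨y, fun θ hθ => y1 θ fun e => hθ (mem_iUnion.2 ⟨n, e⟩), y2⟩) (cl 0).isCompact cl
    refine ⟨y, (mem_iInter.1 hy 0).1, fun θ hθ => ?_⟩
    obtain ⟨n, hn⟩ := mem_iUnion.1 hθ
    exact (mem_iInter.1 hy n).2 θ hn
  choose y y1 y2 using ex
  have bb : ∀ b, bd δ (⋃ n, (F (l b n)).1.1) := fun b α β h1 h2 => by
    obtain ⟨i, hi⟩ := mem_iUnion.1 h1
    obtain ⟨j, hj⟩ := mem_iUnion.1 h2
    exact (hP _ (F (l b (max i j))).2).1 α β (m b (le_max_left i j) hi) (m b (le_max_right i j) hj)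
  refine ⟨⋃ l, (F l).1.1, y, countable_iUnion fun l => (F l).1.2.1, fun b θ hθ => y1 b θ fun e => ?_,
    fun b c hbc => ?_⟩
  · obtain ⟨n, hn⟩ := mem_iUnion.1 e
    exact hθ (mem_iUnion.2 ⟨_, hn⟩)
  have e1 : ∃ n, b n ≠ c n := Function.ne_iff.1 hbc
  have e2 : ∀ n ≤ Nat.find e1, l b n = l c n := fun n hn => by
    induction n with
    | zero => rfl
    | succ n ih =>
      change b n :: l b n = c n :: l c n
      rw [ih (Nat.le_of_succ_le hn), not_not.1 (Nat.find_min e1 hn)]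
  have e3 := Nat.find_spec e1
  have e4 : ∀ b n, (f (F (l b n)) (b n)).1.1 ⊆ ⋃ n, (F (l b n)).1.1 := fun b n =>
    subset_iUnion (fun n => (F (l b n)).1.1) (n + 1)
  have e5 := e4 b (Nat.find e1)
  have e6 := e4 c (Nat.find e1)
  rw [← e2 _ le_rfl] at e6
  cases hb : b (Nat.find e1) <;> cases hc' : c (Nat.find e1)
  · exact absurd (hb.trans hc'.symm) e3
  · rw [hb] at e5
    rw [hc'] at e6
    exact ⟨_, (a _).2, y1 b _ fun k => f5 _ (bb b _ _ k (e5 (f3 _)) (f4 _)), y2 c _ (e6 (f2 _))⟩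
  · rw [hb] at e5
    rw [hc'] at e6
    exact ⟨_, (a _).2, y1 b _ fun k => f5 _ (bb b _ _ (e5 (f2 _)) k (f4 _)), y2 c _ (e6 (f3 _))⟩
  · exact absurd (hb.trans hc'.symm) e3

theorem sup1 (hc : Continuous h) (hi : Function.Injective h)
    (hd : Dense {p | {θ | h p θ ≠ 0}.Countable}) (d : K → K → ℝ) (d1 : ∀ x y, x ≠ y → 0 < d x y)
    (d2 : LowerSemicontinuous fun p : K × K => d p.1 p.2)
    (d3 : ∀ L : Set K, L.Nonempty → ∀ ε > 0, ∃ U, IsOpen U ∧ (U ∩ L).Nonempty ∧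
      ∀ x ∈ U ∩ L, ∀ y ∈ U ∩ L, d x y < ε) (x : K) : Sm {θ | h x θ ≠ 0} := by
  by_contra hn
  obtain ⟨n, hA⟩ : ∃ n : ℕ, ¬ Sm {θ | ∀ y z, h y θ = 0 → h z θ = h x θ →
      1 / ((n : ℝ) + 1) < d y z} := by
    by_contra hm
    push Not at hm
    refine hn ((Cardinal.mk_le_mk_of_subset fun θ hθ => ?_).trans
      (smU (Cardinal.mk_nat.le.trans (Cardinal.aleph0_le_aleph 1)) hm))
    obtain ⟨n, hn⟩ := ((isClosed_eq (by fun_prop) continuous_const).inter (isClosed_eq (by fun_prop)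
      continuous_const) : IsClosed ({p : K × K | h p.1 θ = 0} ∩ {p | h p.2 θ = h x θ})
      ).isCompact.elim_directed_family_closed
      (fun n : ℕ => (fun p : K × K => d p.1 p.2) ⁻¹' Iic (1 / ((n : ℝ) + 1)))
      (fun n => d2.isClosed_preimage _) (eq_empty_of_forall_notMem fun p hp => by
        obtain ⟨n, hn⟩ := exists_nat_one_div_lt (d1 p.1 p.2 fun e =>
          hθ (hp.1.2.symm.trans (e ▸ hp.1.1)))
        exact absurd (mem_iInter.1 hp.2 n) (not_le.2 hn))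
      (directed_of_isDirected_le fun i j e => preimage_mono
        (Iic_subset_Iic.2 (Nat.one_div_le_one_div e)))
    exact mem_iUnion.2 ⟨n, fun y z h1 h2 => not_le.1 fun e =>
      eq_empty_iff_forall_notMem.1 hn (y, z) ⟨⟨h1, h2⟩, e⟩⟩
  obtain ⟨T, y, T1, y1, y2⟩ := tree hc hd x hA
  have := Ys hc hi T1
  have : Uncountable (ℕ → Bool) := Cardinal.aleph0_lt_mk_iff.1 (by
    simpa using Cardinal.aleph0_lt_continuum)
  obtain ⟨L, L1, L2⟩ := frag fun b => (⟨y b, y1 b⟩ : Y h T)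
  obtain ⟨U, U1, ⟨_, U2, b, b1, rfl⟩, U3⟩ := d3 _ (L1.image y) _ (Nat.one_div_pos_of_nat (n := n))
  obtain ⟨c, c1, c2, c3⟩ := L2 _ (U1.preimage continuous_subtype_val) b b1 U2
  obtain ⟨γ, g1, g2, g3⟩ := y2 c b c2
  exact lt_asymm (g1 _ _ g2 g3) (U3 _ ⟨c3, c, c1, rfl⟩ _ ⟨U2, b, b1, rfl⟩)

theorem nocopy (hc : Continuous h) (hi : Function.Injective h) (hs : ∀ x, Sm {θ | h x θ ≠ 0})
    {f : Iic o2 → K} (f1 : Continuous f) (f2 : Function.Injective f) : False := by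
  let F : Ordinal.{0} → K := fun a => f ⟨min a o2, mem_Iic.2 (min_le_right _ _)⟩
  have c : Continuous F := f1.comp ((continuous_id.min continuous_const).subtype_mk _)
  have l2 : Order.IsSuccLimit o2 := Cardinal.isSuccLimit_ord reg.aleph0_le
  have ev : ∀ θ, ∃ g < o2, ∀ a, g < a → a < o2 → h (F a) θ = h (F o2) θ := by
    intro θ
    have : ∀ n : ℕ, ∃ g < o2, ∀ a, g < a → a < o2 →
        dist (h (F a) θ) (h (F o2) θ) < 1 / ((n : ℝ) + 1) := fun n => by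
      obtain ⟨g, g1, g2⟩ := exists_Ioc_subset_of_mem_nhds ((((continuous_apply θ).comp
        (hc.comp c)).tendsto o2).eventually (Metric.ball_mem_nhds _ (Nat.one_div_pos_of_nat (n := n))))
        ⟨0, l2.pos⟩
      exact ⟨g, g1, fun a a1 a2 => g2 ⟨a1, a2.le⟩⟩
    choose g g1 g2 using this
    refine ⟨⨆ n, g n, supN g1, fun a a1 a2 => ?_⟩
    by_contra hn
    obtain ⟨n, hn⟩ := exists_nat_one_div_lt (dist_pos.2 hn)
    exact lt_asymm hn (g2 n a ((Ordinal.le_iSup g n).trans_lt a1) a2)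
  choose g g1 g2 using ev
  have st : ∀ a < o2, ∃ b < o2, a < b ∧ ∀ θ, (h (F o2) θ ≠ 0 ∨ ∃ c ≤ a, h (F c) θ ≠ 0) → g θ < b := by
    intro a ha
    have k : Sm ({θ | h (F o2) θ ≠ 0} ∪ ⋃ c : (a + 1).ToType, {θ | h (F c) θ ≠ 0}) :=
      (Cardinal.mk_union_le _ _).trans (Cardinal.add_le_of_le (Cardinal.aleph0_le_aleph 1) (hs _)
        (smU (by rw [Cardinal.mk_toType]; exact s12.2 (Cardinal.lt_ord.1 (lim2 ha))) fun c => hs _))
    have := Cardinal.iSup_lt_ord_of_isRegular reg (s12.1 k) fun θ => g1 θ.1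
    refine ⟨max a _ + 1, lim2 (max_lt ha this), (le_max_left _ _).trans_lt (lt_add_one _),
      fun θ hθ => lt_of_le_of_lt (le_trans ?_ (le_max_right _ _)) (lt_add_one _)⟩
    refine Ordinal.le_iSup (fun θ : ↥({θ | h (F o2) θ ≠ 0} ∪ ⋃ c : (a + 1).ToType,
      {θ | h (F c) θ ≠ 0}) => g θ.1) ⟨θ, hθ.imp_right ?_⟩
    rintro ⟨c, c1, c2⟩
    exact mem_iUnion.2 ⟨Ordinal.ToType.mk ⟨c, Order.lt_add_one_iff.2 c1⟩, by simpa using c2⟩
  choose! nx n1 n2 n3 using st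
  let u : ℕ → Ordinal.{0} := fun n => nx^[n] 0
  have u1 : ∀ n, u (n + 1) = nx (u n) := fun n => Function.iterate_succ_apply' _ _ _
  have u2 : ∀ n, u n < o2 := fun n => by
    induction n with
    | zero => exact l2.pos
    | succ n ih => rw [u1]; exact n1 _ ih
  have u3 : Monotone u := monotone_nat_of_le_succ fun n => u1 n ▸ (n2 _ (u2 n)).le
  have u4 : Tendsto u atTop (𝓝 (⨆ n, u n)) := tendsto_atTop_ciSup u3 Ordinal.bddAbove_of_small
  have e : F (⨆ n, u n) = F o2 := hi (funext fun θ => by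
    by_cases e : ∃ n, h (F o2) θ ≠ 0 ∨ ∃ c ≤ u n, h (F c) θ ≠ 0
    · obtain ⟨n, hn⟩ := e
      exact g2 θ _ ((n3 _ (u2 n) θ hn).trans_le (u1 n ▸ Ordinal.le_iSup u (n + 1))) (supN u2)
    · push Not at e
      rw [(e 0).1]
      exact tendsto_nhds_unique ((((continuous_apply θ).comp (hc.comp c)).tendsto _).comp u4)
        (tendsto_const_nhds.congr fun n => ((e n).2 _ le_rfl).symm))
  have := congrArg Subtype.val (f2 e)
  simp only [min_self, min_eq_left (supN u2).le] at this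
  exact (supN u2).ne this

end Pool.Agent.H.MP_3028b5
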